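import Pool.Agent.H73.Nabla.Core

open Set Filter Topology

namespace Pool.Agent.Results.MP_d362fb_lc.NoBaireWitness

/-- The box topology on the countable power of `ω + 1` (here `ℕ∞` with its order topology):
a set is open if and only if it contains, around each of its points, a product of open sets. -/
def boxTop : TopologicalSpace (ℕ → ℕ∞) where
  IsOpen S := ∀ x ∈ S, ∃ U : ℕ → Set ℕ∞, (∀ n, IsOpen (U n)) ∧ x ∈ Set.pi univ U ∧
    Set.pi univ U ⊆ S
  isOpen_univ := fun _ _ => ⟨fun _ => univ, fun _ => isOpen_univ, by simp, subset_univ _⟩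
  isOpen_inter := by
    rintro S T hS hT x ⟨hxS, hxT⟩
    obtain ⟨U, hU, hxU, hUS⟩ := hS x hxS
    obtain ⟨V, hV, hxV, hVT⟩ := hT x hxT
    refine ⟨fun n => U n ∩ V n, fun n => (hU n).inter (hV n), ?_, ?_⟩
    · intro n _
      exact ⟨hxU n (mem_univ n), hxV n (mem_univ n)⟩
    · intro y hy
      exact ⟨hUS fun n hn => (hy n hn).1, hVT fun n hn => (hy n hn).2⟩
  isOpen_sUnion := by
    rintro 𝒮 h x ⟨S, hS, hx⟩
    obtain ⟨U, hU, hxU, hUS⟩ := h S hS x hx
    exact ⟨U, hU, hxU, hUS.trans (subset_sUnion_of_mem hS)⟩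

/-- Two points of the power are identified if they differ at finitely many coordinates. -/
def eqFin : Setoid (ℕ → ℕ∞) where
  r x y := {n | x n ≠ y n}.Finite
  iseqv := by
    refine ⟨fun x => by simp, fun {x y} h => ?_, fun {x y z} h h' => ?_⟩
    · simpa only [ne_comm] using h
    · refine (h.union h').subset ?_
      intro n hn
      by_contra hc
      simp only [mem_union, mem_ofPred_eq, not_or, not_not] at hc
      exact hn (hc.1.trans hc.2)

/-- The nabla product. -/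
def Nabla : Type := Quotient eqFin

/-- The class of a point of the power in the nabla product. -/
def cls (x : ℕ → ℕ∞) : Nabla := Quotient.mk eqFin x

/-- The quotient topology of the box topology. -/
def nablaTop : TopologicalSpace Nabla := TopologicalSpace.coinduced cls boxTop

/-- `G` is a monotone normality operator on the nabla product. -/
structure IsMNOperator (G : Nabla → Set Nabla → Set Nabla) : Prop where
  isOpen : ∀ p U, IsOpen[nablaTop] U → p ∈ U → IsOpen[nablaTop] (G p U)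
  mem : ∀ p U, IsOpen[nablaTop] U → p ∈ U → p ∈ G p U
  sub : ∀ p U, IsOpen[nablaTop] U → p ∈ U → G p U ⊆ U
  sep : ∀ p U q V, IsOpen[nablaTop] U → p ∈ U → IsOpen[nablaTop] V → q ∈ V →
    (G p U ∩ G q V).Nonempty → p ∈ V ∨ q ∈ U

/-- The basic box around `x` given by `f`. -/
def box (x : ℕ → ℕ∞) (f : ℕ → ℕ) : Set (ℕ → ℕ∞) :=
  {z | ∀ n, (x n ≠ ⊤ → z n = x n) ∧ (x n = ⊤ → (f n : ℕ∞) < z n)}

/-- The basic neighbourhood of the class of `x` given by `f`: the set of classes of the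
points of the basic box. -/
def nbhd (x : ℕ → ℕ∞) (f : ℕ → ℕ) : Set Nabla := cls '' box x f

/-- The product topology on the power, each factor being discrete. Its Borel sets are the
Borel sets of the compact product. -/
def discTop : TopologicalSpace (ℕ → ℕ∞) :=
  @Pi.topologicalSpace ℕ (fun _ => ℕ∞) (fun _ => ⊥)

/-- `F` has the property of Baire. -/
def BaireMeas (F : (ℕ → ℕ∞) → ℕ → ℕ) : Prop :=
  ∀ n k, @BaireMeasurableSet (ℕ → ℕ∞) discTop {x | F x n = k}

/-- The set of coordinates where `x` is finite. -/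
def dom (x : ℕ → ℕ∞) : Set ℕ := {n | x n ≠ ⊤}

lemma exists_pair (F : (ℕ → ℕ∞) → ℕ → ℕ) (hF : BaireMeas F) :
    ∃ x y : ℕ → ℕ∞, (dom x \ dom y).Infinite ∧ (dom y \ dom x).Infinite ∧
      (box x (F x) ∩ box y (F y)).Nonempty := by
  obtain ⟨W, U, hWo, hWd, hUo, hUd, hU⟩ :=
    PoolH73Nabla.residual_gen' (E := ℕ∞) ⊥ rfl F hF
  obtain ⟨x, y, hx, hy, h1, h2, h3⟩ := PoolH73Nabla.core W U hWo hWd hUo hUd
  have hlt : ∀ k : ℕ, (k : ℕ∞) < (k : ℕ∞) + 1 := by
    intro k
    exact_mod_cast Nat.lt_succ_self k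
  refine ⟨x, y, ?_, ?_, fun n => min (x n) (y n), ?_, ?_⟩
  · refine h1.mono ?_
    rintro n ⟨hn1, hn2⟩
    exact ⟨hn1, fun h => h hn2⟩
  · refine h2.mono ?_
    rintro n ⟨hn1, hn2⟩
    exact ⟨hn1, fun h => h hn2⟩
  · intro n
    rcases h3 n with h | ⟨h, k, hk, hk2⟩ | ⟨h, k, hk, hk2⟩
    · refine ⟨fun _ => by simp [h], fun hn => ?_⟩
      simp [← h, hn]
    · refine ⟨fun _ => by simp [h], fun hn => ?_⟩
      rw [hn] at hk2
      have : (⊤ : ℕ∞) ≠ (k : ℕ∞) + 1 := by
        have := ENat.natCast_ne_top (k + 1)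
        exact_mod_cast this.symm
      exact absurd hk2 this
    · refine ⟨fun hn => absurd h hn, fun _ => ?_⟩
      show (F x n : ℕ∞) < min (x n) (y n)
      rw [h, hk2, hU x hx n k hk]
      simpa using hlt k
  · intro n
    rcases h3 n with h | ⟨h, k, hk, hk2⟩ | ⟨h, k, hk, hk2⟩
    · refine ⟨fun _ => by simp [h], fun hn => ?_⟩
      simp [h, hn]
    · refine ⟨fun hn => absurd h hn, fun _ => ?_⟩
      show (F y n : ℕ∞) < min (x n) (y n)
      rw [h, hk2, hU y hy n k hk]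
      simpa using hlt k
    · refine ⟨fun _ => by simp [h], fun hn => ?_⟩
      rw [hn] at hk2
      have : (⊤ : ℕ∞) ≠ (k : ℕ∞) + 1 := by
        have := ENat.natCast_ne_top (k + 1)
        exact_mod_cast this.symm
      exact absurd hk2 this

lemma cls_eq_iff (x y : ℕ → ℕ∞) : cls x = cls y ↔ {n | x n ≠ y n}.Finite := by
  constructor
  · intro h
    exact Quotient.exact (s := eqFin) h
  · intro h
    exact Quotient.sound (s := eqFin) h

lemma mem_nbhd_self (x : ℕ → ℕ∞) (f : ℕ → ℕ) : cls x ∈ nbhd x f := by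
  refine ⟨x, ?_, rfl⟩
  intro n
  refine ⟨fun _ => rfl, fun h => ?_⟩
  rw [h]
  exact ENat.natCast_lt_top _

lemma isOpen_nbhd (x : ℕ → ℕ∞) (f : ℕ → ℕ) : IsOpen[nablaTop] (nbhd x f) := by
  unfold nablaTop
  rw [isOpen_coinduced]
  rintro z ⟨z', hz', hzz⟩
  rw [cls_eq_iff] at hzz
  classical
  refine ⟨fun n => if z' n = z n then (if x n = ⊤ then Ioi (f n : ℕ∞) else {x n}) else univ,
    ?_, ?_, ?_⟩
  · intro n
    show IsOpen (if z' n = z n then (if x n = ⊤ then Ioi (f n : ℕ∞) else {x n}) else univ)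
    split_ifs with h h'
    · exact isOpen_Ioi
    · exact ENat.isOpen_singleton h'
    · exact isOpen_univ
  · intro n _
    show z n ∈ (if z' n = z n then (if x n = ⊤ then Ioi (f n : ℕ∞) else {x n}) else univ)
    split_ifs with h h'
    · rw [← h]
      exact (hz' n).2 h'
    · rw [← h]
      exact (hz' n).1 h'
    · exact mem_univ _
  · intro w hw
    refine ⟨fun n => if z' n = z n then w n else z' n, ?_, ?_⟩
    · intro n
      show (x n ≠ ⊤ → (if z' n = z n then w n else z' n) = x n) ∧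
        (x n = ⊤ → (f n : ℕ∞) < (if z' n = z n then w n else z' n))
      have hwn := hw n (mem_univ n)
      split_ifs with h
      · simp only [if_pos h] at hwn
        refine ⟨fun hx => ?_, fun hx => ?_⟩
        · rw [if_neg hx] at hwn
          exact hwn
        · rw [if_pos hx] at hwn
          exact hwn
      · exact hz' n
    · rw [cls_eq_iff]
      refine hzz.subset ?_
      intro n hn
      simp only [ne_eq, mem_ofPred_eq] at hn ⊢
      intro h
      rw [if_pos h] at hn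
      exact hn rfl

lemma exists_nbhd_subset (x : ℕ → ℕ∞) (V : Set Nabla) (hV : IsOpen[nablaTop] V)
    (hx : cls x ∈ V) : ∃ f, nbhd x f ⊆ V := by
  unfold nablaTop at hV
  rw [isOpen_coinduced] at hV
  obtain ⟨U, hU, hxU, hUS⟩ := hV x hx
  have h : ∀ n, ∃ N : ℕ, x n = ⊤ → Ioi (N : ℕ∞) ⊆ U n := by
    intro n
    by_cases hn : x n = ⊤
    · have h1 : U n ∈ 𝓝 (⊤ : ℕ∞) := by
        rw [← hn]
        exact (hU n).mem_nhds (hxU n (mem_univ n))
      obtain ⟨a, ha, hsub⟩ := (nhds_top_basis (α := ℕ∞)).mem_iff.mp h1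
      refine ⟨a.toNat, fun _ => ?_⟩
      rw [ENat.natCast_toNat ha.ne]
      exact hsub
    · exact ⟨0, fun h => absurd h hn⟩
  choose f hf using h
  refine ⟨f, ?_⟩
  rintro _ ⟨z, hz, rfl⟩
  apply hUS
  intro n _
  by_cases hn : x n = ⊤
  · exact hf n hn ((hz n).2 hn)
  · rw [(hz n).1 hn]
    exact hxU n (mem_univ n)

lemma not_mem_nbhd (x y : ℕ → ℕ∞) (f : ℕ → ℕ) (h : (dom x \ dom y).Infinite) :
    cls y ∉ nbhd x f := by
  rintro ⟨z, hz, hzy⟩
  rw [cls_eq_iff] at hzy
  apply h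
  refine hzy.subset ?_
  rintro n ⟨hn1, hn2⟩ hzn
  apply hn2
  show y n ≠ ⊤
  rw [← hzn, (hz n).1 hn1]
  exact hn1

/-- No function with the property of Baire witnesses Roitman's principle, and no monotone
normality operator on the nabla product has a selection of basic neighbourhoods with the
property of Baire. -/
theorem result :
    (∀ F : (ℕ → ℕ∞) → ℕ → ℕ, BaireMeas F →
      ∃ x y : ℕ → ℕ∞, (dom x \ dom y).Infinite ∧ (dom y \ dom x).Infinite ∧
        (nbhd x (F x) ∩ nbhd y (F y)).Nonempty) ∧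
    (∀ G : Nabla → Set Nabla → Set Nabla, IsMNOperator G →
      ∀ U : (ℕ → ℕ∞) → Set Nabla,
      (∀ x, IsOpen[nablaTop] (U x) ∧ cls x ∈ U x ∧ U x ⊆ nbhd x (fun _ => 0)) →
      (∃ F : (ℕ → ℕ∞) → ℕ → ℕ, ∀ x, nbhd x (F x) ⊆ G (cls x) (U x)) ∧
      ∀ F : (ℕ → ℕ∞) → ℕ → ℕ, (∀ x, nbhd x (F x) ⊆ G (cls x) (U x)) → ¬ BaireMeas F) := by
  have main : ∀ F : (ℕ → ℕ∞) → ℕ → ℕ, BaireMeas F →
      ∃ x y : ℕ → ℕ∞, (dom x \ dom y).Infinite ∧ (dom y \ dom x).Infinite ∧
        (nbhd x (F x) ∩ nbhd y (F y)).Nonempty := by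
    intro F hF
    obtain ⟨x, y, h1, h2, z, hz1, hz2⟩ := exists_pair F hF
    exact ⟨x, y, h1, h2, cls z, ⟨z, hz1, rfl⟩, ⟨z, hz2, rfl⟩⟩
  refine ⟨main, ?_⟩
  intro G hG U hU
  constructor
  · have h : ∀ x, ∃ f, nbhd x f ⊆ G (cls x) (U x) := fun x =>
      exists_nbhd_subset x _ (hG.isOpen _ _ (hU x).1 (hU x).2.1) (hG.mem _ _ (hU x).1 (hU x).2.1)
    choose F hF using h
    exact ⟨F, hF⟩
  · intro F hF hB
    obtain ⟨x, y, h1, h2, p, hp1, hp2⟩ := main F hB
    rcases hG.sep (cls x) (U x) (cls y) (U y) (hU x).1 (hU x).2.1 (hU y).1 (hU y).2.1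
      ⟨p, hF x hp1, hF y hp2⟩ with h | h
    · exact not_mem_nbhd y x _ h2 ((hU y).2.2 h)
    · exact not_mem_nbhd x y _ h1 ((hU x).2.2 h)

end Pool.Agent.Results.MP_d362fb_lc.NoBaireWitness
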