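import Pool.Agent.DL.P.Final

/-!
# MP_d362fb_lc, Q1 in the negated form: it is consistent with ZFC that the nabla product of
countably many copies of `ω + 1` is not monotonically normal

`M` is a type and `E x y` means: `x` is an element of `y`.
-/

set_option autoImplicit false

namespace Pool.Agent.Results.MP_d362fb_lc.NotMonotonicallyNormal

open CI DN

/-- **The nabla product of `ω` copies of `ω + 1` need not be monotonically normal.** There is a
model `(M, E)` of ZFC with the following property: `w` is the set of natural numbers of the model,
`w1` is its ordinal `ω + 1`, and no element `g` of the model is a monotone normality operator for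
the nabla product of `ω` copies of `ω + 1`. All notions are taken inside the model. -/
theorem result : ∃ (M : Type 1) (E : M → M → Prop), ZFC E ∧ ∃ w w1 : M, IsOmega E w ∧
    IsSucc E w1 w ∧ ¬ ∃ g, IsMNOp E w w1 g :=
  Pool.Agent.DL.P.final

end Pool.Agent.Results.MP_d362fb_lc.NotMonotonicallyNormal
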